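import Pool.Agent.Lib.FremlinSC40.Defs

open Cardinal MeasureTheory

namespace FremlinSC40

variable (B : Set (Om → Bool)) (K : Type)

/-- the index set of the ambient space of bounded functions -/
def E : Type := B ⊕ K

instance : TopologicalSpace (E B K) := ⊥
instance : DiscreteTopology (E B K) := ⟨rfl⟩

/-- the ambient space of bounded functions -/
abbrev Z : Type := BoundedContinuousFunction (E B K) ℝ

variable {B K}

open Classical in
/-- indicator functions -/
noncomputable def ind (A : Set (E B K)) : Z B K :=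
  BoundedContinuousFunction.ofNormedAddCommGroupDiscrete (fun e => if e ∈ A then (1 : ℝ) else 0) 1
    (fun e => by by_cases h : e ∈ A <;> simp [h])

open Classical in
lemma ind_apply (A : Set (E B K)) (e : E B K) : ind A e = if e ∈ A then (1 : ℝ) else 0 := rfl

lemma ind_empty : ind (∅ : Set (E B K)) = 0 := by
  ext e; simp [ind_apply]

variable (B K) in
/-- the functions in `B` which extend `r` and take the value `ε` at `a` -/
def cone (a : Om) (r : Set.Iio a → Bool) (ε : Bool) : Set (E B K) :=
  {e | ∃ c : B, e = Sum.inl c ∧ (∀ η : Set.Iio a, c.1 η = r η) ∧ c.1 a = ε}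

variable (B K) in
/-- the generating vectors -/
noncomputable def u (a : Om) (r : Set.Iio a → Bool) (ε : Bool) : Z B K := ind (cone B K a r ε)

variable (B K) in
/-- the additional vectors -/
noncomputable def pt (k : K) : Z B K := ind {Sum.inr k}

variable (B K) in
/-- the generating set -/
def G : Set (Z B K) := (Set.range fun p : (a : Om) × (Set.Iio a → Bool) × Bool => u B K p.1 p.2.1 p.2.2) ∪
  Set.range (pt B K)

variable (B K) in
/-- the space, as a subspace -/
noncomputable abbrev XS : Submodule ℝ (Z B K) := (Submodule.span ℝ (G B K)).topologicalClosure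

variable (B K) in
/-- the space -/
def X : Type := XS B K

noncomputable instance : NormedAddCommGroup (X B K) := Submodule.normedAddCommGroup (XS B K)
noncomputable instance : NormedSpace ℝ (X B K) := Submodule.normedSpace (XS B K)
instance : CompleteSpace (X B K) :=
  (Submodule.isClosed_topologicalClosure (Submodule.span ℝ (G B K))).completeSpace_coe

lemma u_mem (a : Om) (r : Set.Iio a → Bool) (ε : Bool) :
    u B K a r ε ∈ (Submodule.span ℝ (G B K)).topologicalClosure := by
  apply Submodule.le_topologicalClosure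
  apply Submodule.subset_span
  left
  exact ⟨⟨a, r, ε⟩, rfl⟩

variable (B K) in
/-- the generating vectors as elements of `X` -/
noncomputable def ux (a : Om) (r : Set.Iio a → Bool) (ε : Bool) : X B K := ⟨u B K a r ε, u_mem a r ε⟩

variable (B K) in
/-- the vector attached to a node -/
noncomputable def xv (a : Om) (r : Set.Iio a → Bool) : X B K := ux B K a r false - ux B K a r true

variable (B K) in
/-- evaluation at a point -/
noncomputable def ev (e : E B K) : X B K →L[ℝ] ℝ :=
  (BoundedContinuousFunction.evalCLM ℝ e).comp (Submodule.subtypeL (XS B K))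

lemma ev_apply (e : E B K) (x : X B K) : ev B K e x = x.1 e := rfl

/-- restriction of a branch -/
def rs (b : Om → Bool) (a : Om) : Set.Iio a → Bool := fun η => b η

open Classical in
lemma ux_apply (a : Om) (r : Set.Iio a → Bool) (ε : Bool) (c : B) :
    (ux B K a r ε).1 (Sum.inl c : E B K) =
      if (∀ η : Set.Iio a, c.1 η = r η) ∧ c.1 a = ε then (1 : ℝ) else 0 := by
  change ind (cone B K a r ε) _ = _
  rw [ind_apply]
  congr 1
  apply propext
  constructor
  · rintro ⟨c', h1, h2⟩
    have : c = c' := Sum.inl_injective h1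
    rw [this]; exact h2
  · intro h
    exact ⟨c, rfl, h⟩

open Classical in
lemma ux_apply_inr (a : Om) (r : Set.Iio a → Bool) (ε : Bool) (k : K) :
    (ux B K a r ε).1 (Sum.inr k : E B K) = 0 := by
  change ind (cone B K a r ε) _ = _
  rw [ind_apply, if_neg]
  rintro ⟨c', h1, h2⟩
  exact absurd h1 (by simp)

lemma norm_X (x : X B K) : ‖x‖ = ‖(x.1 : Z B K)‖ := rfl

lemma ev_le (e : E B K) (x : X B K) : |x.1 e| ≤ ‖x‖ := by
  rw [norm_X]
  exact BoundedContinuousFunction.norm_coe_le_norm (x.1 : Z B K) e

/-- families with `∑ |h i e| ≤ 1` for all `e` -/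
lemma sum_abs_le {ι : Type*} (S : Finset ι) (h : ι → X B K) (x' : X B K →L[ℝ] ℝ)
    (hh : ∀ e, ∑ i ∈ S, |(h i).1 e| ≤ 1) : ∑ i ∈ S, |x' (h i)| ≤ ‖x'‖ := by
  have h1 : ∑ i ∈ S, |x' (h i)| = x' (∑ i ∈ S, (SignType.sign (x' (h i)) : ℝ) • h i) := by
    rw [map_sum]
    refine Finset.sum_congr rfl fun i _ => ?_
    rw [map_smul, smul_eq_mul, sign_mul_self]
  rw [h1]
  have h2 : ‖∑ i ∈ S, (SignType.sign (x' (h i)) : ℝ) • h i‖ ≤ 1 := by
    rw [norm_X, BoundedContinuousFunction.norm_le zero_le_one]
    intro e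
    have h3 : (∑ i ∈ S, (SignType.sign (x' (h i)) : ℝ) • h i : X B K).1 e =
        ∑ i ∈ S, (SignType.sign (x' (h i)) : ℝ) * (h i).1 e := by
      rw [← ev_apply, map_sum]
      refine Finset.sum_congr rfl fun i _ => ?_
      rw [map_smul, smul_eq_mul, ev_apply]
    rw [h3]
    refine (Finset.abs_sum_le_sum_abs _ _).trans ((Finset.sum_le_sum fun i _ => ?_).trans (hh e))
    rw [abs_mul]
    refine mul_le_of_le_one_left (abs_nonneg _) ?_
    rcases SignType.trichotomy (SignType.sign (x' (h i))) with h | h | h <;> simp [h]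
  calc x' (∑ i ∈ S, (SignType.sign (x' (h i)) : ℝ) • h i)
      ≤ ‖x' (∑ i ∈ S, (SignType.sign (x' (h i)) : ℝ) • h i)‖ := le_abs_self _
    _ ≤ ‖x'‖ * ‖∑ i ∈ S, (SignType.sign (x' (h i)) : ℝ) • h i‖ := x'.le_opNorm _
    _ ≤ ‖x'‖ * 1 := by gcongr
    _ = ‖x'‖ := mul_one _

end FremlinSC40
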