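import Pool.Agent.Lib.FremlinSC40.Defs
import Pool.Agent.Lib.FremlinSC40.Space

section

open Cardinal MeasureTheory

namespace FremlinSC40

/-- for each `ε > 0` the function oscillates by less than `ε` from some point on -/
theorem bv_osc (φ : Om → ℝ) (C : ℝ)
    (h : ∀ (n : ℕ) (t : ℕ → Om), StrictMono t →
      ∑ i ∈ Finset.range n, |φ (t (i + 1)) - φ (t i)| ≤ C) (ε : ℝ) (hε : 0 < ε) :
    ∃ a : Om, ∀ x, a ≤ x → |φ x - φ a| < ε := by
  by_contra hcon
  push Not at hcon
  have hstep : ∀ a : Om, ∃ b : Om, a < b ∧ ε ≤ |φ b - φ a| := by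
    intro a
    obtain ⟨x, hx, hxe⟩ := hcon a
    refine ⟨x, lt_of_le_of_ne hx ?_, hxe⟩
    rintro rfl
    simp at hxe
    linarith
  choose f hf1 hf2 using hstep
  have hne : Nonempty Om := by
    by_contra hno
    rw [not_nonempty_iff] at hno
    exact om_uncountable (Set.countable_univ_iff.mpr inferInstance)
  obtain ⟨a0⟩ := hne
  let t : ℕ → Om := fun n => Nat.rec a0 (fun _ a => f a) n
  have ht : ∀ n, t (n + 1) = f (t n) := fun n => rfl
  have hmono : StrictMono t := strictMono_nat_of_lt_succ (fun n => by rw [ht]; exact hf1 _)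
  obtain ⟨n, hn⟩ := exists_nat_gt (C / ε)
  have h1 := h n t hmono
  have h2 : ∑ i ∈ Finset.range n, ε ≤ ∑ i ∈ Finset.range n, |φ (t (i + 1)) - φ (t i)| :=
    Finset.sum_le_sum (fun i _ => by rw [ht]; exact hf2 _)
  rw [Finset.sum_const, Finset.card_range, nsmul_eq_mul] at h2
  rw [div_lt_iff₀ hε] at hn
  linarith

/-- A real function on `Om` of bounded variation is constant outside a countable set. -/
theorem eventually_const (φ : Om → ℝ) (C : ℝ)
    (h : ∀ (n : ℕ) (t : ℕ → Om), StrictMono t →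
      ∑ i ∈ Finset.range n, |φ (t (i + 1)) - φ (t i)| ≤ C) :
    ∃ c, {ξ | φ ξ ≠ c}.Countable := by
  have h1 := fun n : ℕ => bv_osc φ C h (1 / ((n : ℝ) + 1)) (by positivity)
  choose a ha using h1
  have hub : ∃ b : Om, ∀ n, a n ≤ b := by
    by_contra hcon
    push Not at hcon
    apply om_uncountable
    have : (Set.univ : Set Om) = ⋃ n, Set.Iio (a n) := by
      ext x
      simpa using hcon x
    rw [this]
    exact Set.countable_iUnion (fun n => om_countable_Iio _)
  obtain ⟨b, hb⟩ := hub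
  refine ⟨φ b, (om_countable_Iio b).mono ?_⟩
  intro x hx
  rw [Set.mem_Iio]
  by_contra hxb
  rw [not_lt] at hxb
  apply hx
  by_contra hne
  have hpos : 0 < |φ x - φ b| := abs_pos.mpr (sub_ne_zero.mpr hne)
  obtain ⟨n, hn⟩ := exists_nat_one_div_lt (half_pos hpos)
  have e1 := ha n x ((hb n).trans hxb)
  have e2 := ha n b (hb n)
  have e3 : |φ x - φ b| ≤ |φ x - φ (a n)| + |φ b - φ (a n)| := by
    have := abs_sub_le (φ x) (φ (a n)) (φ b)
    rw [abs_sub_comm (φ (a n)) (φ b)] at this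
    exact this
  linarith

end FremlinSC40
end

section

open Cardinal MeasureTheory

namespace FremlinSC40

variable {B : Set (Om → Bool)} {K : Type}

open Classical in
/-- the siblings are disjoint -/
lemma sib_sum (b : Om → Bool) (S : Finset Om) (e : E B K) :
    ∑ ξ ∈ S, |(ux B K ξ (rs b ξ) (!b ξ)).1 e| ≤ 1 := by
  rcases e with c | k
  · by_cases h : ∃ ξ ∈ S, (ux B K ξ (rs b ξ) (!b ξ)).1 (Sum.inl c : E B K) ≠ 0
    · obtain ⟨ξ, hξ, h1⟩ := h
      have key : ∀ ζ, (ux B K ζ (rs b ζ) (!b ζ)).1 (Sum.inl c : E B K) ≠ 0 →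
          (∀ η < ζ, c.1 η = b η) ∧ c.1 ζ ≠ b ζ := by
        intro ζ hζ
        rw [ux_apply] at hζ
        by_cases hc : (∀ η : Set.Iio ζ, c.1 η = rs b ζ η) ∧ c.1 ζ = !b ζ
        · refine ⟨fun η hη => hc.1 ⟨η, hη⟩, ?_⟩
          rw [hc.2]; simp
        · rw [if_neg hc] at hζ; exact absurd rfl hζ
      have h2 : ∀ ζ ∈ S, ζ ≠ ξ → |(ux B K ζ (rs b ζ) (!b ζ)).1 (Sum.inl c : E B K)| = 0 := by
        intro ζ _ hζξ
        by_contra h3
        have h4 := key ζ (fun h => h3 (by rw [h]; simp))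
        have h5 := key ξ h1
        rcases lt_or_gt_of_ne hζξ with h6 | h6
        · exact h4.2 (h5.1 ζ h6)
        · exact h5.2 (h4.1 ξ h6)
      rw [Finset.sum_eq_single ξ h2 (fun h => absurd hξ h)]
      rw [ux_apply]
      split_ifs <;> simp
    · push Not at h
      rw [Finset.sum_eq_zero]
      · exact zero_le_one
      · intro ξ hξ; rw [h ξ hξ]; simp
  · rw [Finset.sum_eq_zero]
    · exact zero_le_one
    · intro ξ _
      rw [ux_apply_inr]; simp

lemma sib_zero (b : Om → Bool) (x' : X B K →L[ℝ] ℝ) :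
    {ξ | x' (ux B K ξ (rs b ξ) (!b ξ)) ≠ 0}.Countable := by
  have h1 : Summable (fun ξ => |x' (ux B K ξ (rs b ξ) (!b ξ))|) := by
    apply summable_of_sum_le (fun _ => abs_nonneg _)
    intro S
    exact sum_abs_le S _ x' (sib_sum b S)
  refine h1.countable_support.mono ?_
  intro ξ hξ
  simpa using hξ

open Classical in
lemma along_apply (b : Om → Bool) (ξ : Om) (c : B) :
    (ux B K ξ (rs b ξ) (b ξ)).1 (Sum.inl c : E B K) = if ∀ η ≤ ξ, c.1 η = b η then (1 : ℝ) else 0 := by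
  rw [ux_apply]
  congr 1
  apply propext
  constructor
  · rintro ⟨h1, h2⟩ η hη
    rcases hη.lt_or_eq with h | h
    · exact h1 ⟨η, h⟩
    · rw [h]; exact h2
  · intro h
    exact ⟨fun η => h _ (le_of_lt η.2), h _ le_rfl⟩

lemma along_antitone (b : Om → Bool) {ξ ζ : Om} (h : ξ ≤ ζ) (e : E B K) :
    (ux B K ζ (rs b ζ) (b ζ)).1 e ≤ (ux B K ξ (rs b ξ) (b ξ)).1 e := by
  rcases e with c | k
  · change (ux B K ζ (rs b ζ) (b ζ)).1 (Sum.inl c : E B K) ≤ (ux B K ξ (rs b ξ) (b ξ)).1 (Sum.inl c : E B K)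
    rw [along_apply, along_apply]
    by_cases h1 : ∀ η ≤ ζ, c.1 η = b η
    · rw [if_pos h1, if_pos fun η hη => h1 η (hη.trans h)]
    · rw [if_neg h1]; split_ifs <;> simp
  · change (ux B K ζ (rs b ζ) (b ζ)).1 (Sum.inr k : E B K) ≤ (ux B K ξ (rs b ξ) (b ξ)).1 (Sum.inr k : E B K)
    rw [ux_apply_inr, ux_apply_inr]

lemma along_nonneg (b : Om → Bool) (ξ : Om) (e : E B K) : 0 ≤ (ux B K ξ (rs b ξ) (b ξ)).1 e := by
  rcases e with c | k
  · change 0 ≤ (ux B K ξ (rs b ξ) (b ξ)).1 (Sum.inl c : E B K)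
    rw [along_apply]; split_ifs <;> simp
  · change 0 ≤ (ux B K ξ (rs b ξ) (b ξ)).1 (Sum.inr k : E B K)
    rw [ux_apply_inr]

lemma along_le_one (b : Om → Bool) (ξ : Om) (e : E B K) : (ux B K ξ (rs b ξ) (b ξ)).1 e ≤ 1 := by
  rcases e with c | k
  · change (ux B K ξ (rs b ξ) (b ξ)).1 (Sum.inl c : E B K) ≤ 1
    rw [along_apply]; split_ifs <;> simp
  · change (ux B K ξ (rs b ξ) (b ξ)).1 (Sum.inr k : E B K) ≤ 1
    rw [ux_apply_inr]; exact zero_le_one

lemma along_const (b : Om → Bool) (x' : X B K →L[ℝ] ℝ) :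
    ∃ c, {ξ | x' (ux B K ξ (rs b ξ) (b ξ)) ≠ c}.Countable := by
  refine eventually_const _ ‖x'‖ ?_
  intro n t ht
  have h := sum_abs_le (Finset.range n)
    (fun i => ux B K (t (i + 1)) (rs b (t (i + 1))) (b (t (i + 1))) - ux B K (t i) (rs b (t i)) (b (t i))) x' ?_
  · simpa only [map_sub] using h
  · intro e
    have h1 : ∀ i ∈ Finset.range n, |(ux B K (t (i + 1)) (rs b (t (i + 1))) (b (t (i + 1))) -
        ux B K (t i) (rs b (t i)) (b (t i))).1 e| =
        (ux B K (t i) (rs b (t i)) (b (t i))).1 e -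
          (ux B K (t (i + 1)) (rs b (t (i + 1))) (b (t (i + 1)))).1 e := by
      intro i _
      rw [← ev_apply, map_sub, ev_apply, ev_apply, abs_sub_comm, abs_of_nonneg]
      exact sub_nonneg.mpr (along_antitone b (ht.monotone (Nat.le_succ i)) e)
    rw [Finset.sum_congr rfl h1,
      Finset.sum_range_sub' (fun i => (ux B K (t i) (rs b (t i)) (b (t i))).1 e)]
    linarith [along_nonneg b (t n) e, along_le_one b (t 0) e]

/-- every functional has eventually constant absolute value along a branch -/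
lemma abs_const (b : Om → Bool) (x' : X B K →L[ℝ] ℝ) :
    ∃ c, {ξ | |x' (xv B K ξ (rs b ξ))| ≠ c}.Countable := by
  obtain ⟨c, hc⟩ := along_const b x'
  refine ⟨|c|, (hc.union (sib_zero b x')).mono ?_⟩
  intro ξ hξ
  by_contra h
  simp only [Set.mem_union, Set.mem_setOf_eq, not_or, not_not] at h
  apply hξ
  obtain ⟨h1, h2⟩ := h
  unfold xv
  rw [map_sub]
  cases hb : b ξ
  · rw [hb] at h1 h2
    simp only [Bool.not_false] at h2
    rw [h1, h2, sub_zero]
  · rw [hb] at h1 h2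
    simp only [Bool.not_true] at h2
    rw [h1, h2, zero_sub, abs_neg]

/-- the value of the node vector at a branch -/
lemma xv_branch {b : Om → Bool} (hb : b ∈ B) (ξ : Om) :
    ev B K (Sum.inl ⟨b, hb⟩) (xv B K ξ (rs b ξ)) = if b ξ then -1 else 1 := by
  unfold xv
  rw [map_sub, ev_apply, ev_apply, ux_apply, ux_apply]
  cases h : b ξ <;> simp [rs, h]

end FremlinSC40
end
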