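import Mathlib

/-!
# MP_94b3dc_an : property (SC) and trees of height omega_1
-/

open Cardinal MeasureTheory

namespace FremlinSC40

/-- The well-ordered set `ω₁`. -/
abbrev Om : Type := (Cardinal.aleph 1).ord.ToType

/-- `wk(X)` has property (SC): there is a map `ψ` on sets with `ψ C ∈ C` for every non-empty
weakly compact `C ⊆ X`, such that for every complete probability space `Ω` and every map `F` from
`Ω` to the non-empty weakly compact subsets of `X` which is scalarly measurable (for all
`x' ∈ X*` and `a ∈ ℝ` the set of `ω` for which `F ω` meets `{x : x' x > a}` is measurable),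
`ψ ∘ F` is scalarly measurable. -/
def PropertySC (X : Type) [NormedAddCommGroup X] [NormedSpace ℝ X] : Prop :=
  ∃ ψ : Set X → X,
    (∀ C : Set X, C.Nonempty → IsCompact ((toWeakSpace ℝ X) '' C) → ψ C ∈ C) ∧
    ∀ (Ω : Type) (_ : MeasurableSpace Ω) (μ : Measure Ω),
      IsProbabilityMeasure μ → μ.IsComplete →
      ∀ F : Ω → Set X,
        (∀ ω, (F ω).Nonempty ∧ IsCompact ((toWeakSpace ℝ X) '' (F ω))) →
        (∀ (x' : X →L[ℝ] ℝ) (a : ℝ), MeasurableSet {ω | ∃ x ∈ F ω, a < x' x}) →
        ∀ x' : X →L[ℝ] ℝ, Measurable (fun ω => x' (ψ (F ω)))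

/-- The density character of `X` is `κ`. -/
def HasDensity (X : Type) [TopologicalSpace X] (κ : Cardinal.{0}) : Prop :=
  (∃ D : Set X, Dense D ∧ #D = κ) ∧ ∀ D : Set X, Dense D → κ ≤ #D

/-- the restrictions to `{η : η < a}` of the functions in `B` -/
def Restr (B : Set (Om → Bool)) (a : Om) : Set (Set.Iio a → Bool) :=
  (fun (b : Om → Bool) (η : Set.Iio a) => b η) '' B

theorem om_countable_Iio (a : Om) : (Set.Iio a).Countable := by
  rw [Cardinal.countable_iff_lt_aleph_one]
  exact Cardinal.mk_Iio_toType_ord_lt a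

theorem om_uncountable : ¬ (Set.univ : Set Om).Countable := by
  rw [Cardinal.countable_iff_lt_aleph_one, Cardinal.mk_univ, Cardinal.mk_ord_toType]
  exact lt_irrefl _

end FremlinSC40
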