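import Pool.Agent.Lib.FremlinSC40.Defs
import Pool.Agent.Lib.FremlinSC40.Space
import Pool.Agent.Lib.FremlinSC40.Branch

section

open Cardinal

namespace FremlinSC40

variable {Z : Type} [NormedAddCommGroup Z] [NormedSpace ℝ Z]

/-- The rational combinations of the elements of `G`. -/
noncomputable def ratComb (G : Set Z) : (G →₀ ℚ) →+ Z :=
  Finsupp.liftAddHom fun g =>
    { toFun := fun q => (q : ℝ) • (g : Z)
      map_zero' := by simp
      map_add' := fun p q => by push_cast; rw [add_smul] }

theorem ratComb_single (G : Set Z) (g : G) (q : ℚ) :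
    ratComb G (Finsupp.single g q) = (q : ℝ) • (g : Z) := by
  unfold ratComb
  rw [Finsupp.liftAddHom_apply_single]
  rfl

theorem ratComb_smul (G : Set Z) (q : ℚ) (f : G →₀ ℚ) :
    ratComb G (q • f) = (q : ℝ) • ratComb G f := by
  induction f using Finsupp.induction_linear with
  | zero => simp
  | add f g hf hg => rw [smul_add, map_add, map_add, hf, hg, smul_add]
  | single g p =>
    rw [Finsupp.smul_single, ratComb_single, ratComb_single, smul_smul, smul_eq_mul]
    push_cast
    rfl

theorem span_le_closure (G : Set Z) {z : Z} (hz : z ∈ Submodule.span ℝ G) :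
    z ∈ closure (Set.range (ratComb G)) := by
  induction hz using Submodule.span_induction with
  | mem x hx =>
    refine subset_closure ⟨Finsupp.single ⟨x, hx⟩ 1, ?_⟩
    rw [ratComb_single]
    simp
  | zero => exact subset_closure ⟨0, map_zero _⟩
  | add x y _ _ hx hy =>
    refine map_mem_closure₂ continuous_add hx hy ?_
    rintro _ ⟨a, rfl⟩ _ ⟨b, rfl⟩
    exact ⟨a + b, map_add _ _ _⟩
  | smul r x _ hx =>
    have hr : r ∈ closure (Set.range ((↑) : ℚ → ℝ)) := Rat.denseRange_cast (𝕜 := ℝ) r
    refine map_mem_closure₂ (f := fun (a : ℝ) (b : Z) => a • b) continuous_smul hr hx ?_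
    rintro _ ⟨q, rfl⟩ _ ⟨b, rfl⟩
    exact ⟨q • b, ratComb_smul G q b⟩

theorem ratComb_mem (G : Set Z) (f : G →₀ ℚ) : ratComb G f ∈ Submodule.span ℝ G := by
  induction f using Finsupp.induction_linear with
  | zero => simp
  | add f g hf hg => rw [map_add]; exact Submodule.add_mem _ hf hg
  | single g p =>
    rw [ratComb_single]
    exact Submodule.smul_mem _ _ (Submodule.subset_span g.2)

/-- The closed linear span of a set of cardinality at most `κ` (infinite) which contains a family
`v : K → Z`, `#K = κ`, of vectors at mutual distance at least `1`, has density `κ`. (Dense set: closure of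
the rational span, i.e. the range of `G →₀ ℚ`; lower bound: the balls of radius `1/2`
around the `v k` are disjoint.) -/
theorem hasDensity_closedSpan (κ : Cardinal.{0}) (hκ : ℵ₀ ≤ κ) (G : Set Z) (hG : #G ≤ κ)
    {K : Type} (hK : #K = κ) (v : K → Z) (hv : ∀ k, v k ∈ G) (hd : ∀ i j, i ≠ j → 1 ≤ ‖v i - v j‖) :
    HasDensity ((Submodule.span ℝ G).topologicalClosure) κ := by
  have hlow : ∀ D : Set ((Submodule.span ℝ G).topologicalClosure), Dense D → κ ≤ #D := by
    intro D hD
    have hmem : ∀ k, v k ∈ (Submodule.span ℝ G).topologicalClosure := fun k =>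
      (Submodule.le_topologicalClosure _) (Submodule.subset_span (hv k))
    have h1 : ∀ k, ∃ d ∈ D, dist (⟨v k, hmem k⟩ : (Submodule.span ℝ G).topologicalClosure) d < 1 / 2 :=
      fun k => hD.exists_dist_lt _ (by norm_num)
    choose d hdD hdd using h1
    rw [← hK]
    refine Cardinal.mk_le_of_injective (f := fun k => (⟨d k, hdD k⟩ : D)) fun i j hij => ?_
    by_contra hne
    have h2 : d i = d j := congrArg Subtype.val hij
    have h3 := hdd i
    have h4 := hdd j
    rw [h2] at h3
    have h5 := dist_triangle_right (⟨v i, hmem i⟩ : (Submodule.span ℝ G).topologicalClosure)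
      ⟨v j, hmem j⟩ (d j)
    have h6 : dist (⟨v i, hmem i⟩ : (Submodule.span ℝ G).topologicalClosure) ⟨v j, hmem j⟩ =
        ‖v i - v j‖ := by rw [Subtype.dist_eq, dist_eq_norm]
    have h7 := hd i j hne
    linarith
  refine ⟨?_, hlow⟩
  let D : Set ((Submodule.span ℝ G).topologicalClosure) := Subtype.val ⁻¹' Set.range (ratComb G)
  have hDd : Dense D := by
    refine Subtype.dense_iff.2 fun z hz => ?_
    have h1 : Subtype.val '' D = Set.range (ratComb G) := by
      ext y
      constructor
      · rintro ⟨x, hx, rfl⟩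
        exact hx
      · rintro ⟨f, rfl⟩
        exact ⟨⟨_, (Submodule.le_topologicalClosure _) (ratComb_mem G f)⟩, ⟨f, rfl⟩, rfl⟩
    have h2 : z ∈ closure (Set.range (ratComb G)) := by
      have h3 : closure (Submodule.span ℝ G : Set Z) ⊆ closure (Set.range (ratComb G)) :=
        closure_minimal (fun x hx => span_le_closure G hx) isClosed_closure
      exact h3 hz
    exact h1.symm ▸ h2
  refine ⟨D, hDd, le_antisymm ?_ (hlow D hDd)⟩
  have hKne : Nonempty K := by
    rw [← Cardinal.mk_ne_zero_iff, hK]
    exact (Cardinal.aleph0_pos.trans_le hκ).ne'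
  have hGne : Nonempty G := ⟨⟨v hKne.some, hv _⟩⟩
  calc #D ≤ #(Set.range (ratComb G)) := Cardinal.mk_preimage_of_injective _ _ Subtype.val_injective
    _ ≤ #(G →₀ ℚ) := Cardinal.mk_range_le
    _ = max #G #ℚ := Cardinal.mk_finsupp_of_infinite' _ _
    _ ≤ κ := max_le hG (by rw [Cardinal.mk_eq_aleph0]; exact hκ)

end FremlinSC40
end

section

open Cardinal MeasureTheory

namespace FremlinSC40

/-- the countable-cocountable sigma-algebra -/
@[instance_reducible] private def ccSpace : MeasurableSpace Om where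
  MeasurableSet' s := s.Countable ∨ sᶜ.Countable
  measurableSet_empty := Or.inl Set.countable_empty
  measurableSet_compl s hs := by
    rw [compl_compl]
    exact hs.symm
  measurableSet_iUnion f hf := by
    by_cases h : ∀ i, (f i).Countable
    · exact Or.inl (Set.countable_iUnion h)
    · push Not at h
      obtain ⟨i, hi⟩ := h
      right
      refine ((hf i).resolve_left hi).mono ?_
      exact Set.compl_subset_compl.2 (Set.subset_iUnion f i)

private lemma not_countable_compl {s : Set Om} (hs : s.Countable) : ¬ sᶜ.Countable := by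
  intro h
  apply om_uncountable
  rw [← Set.union_compl_self s]
  exact hs.union h

open Classical in
private noncomputable def ccMeasure : @Measure Om ccSpace :=
  @Measure.ofMeasurable Om ccSpace (fun s _ => if sᶜ.Countable then 1 else 0)
    (by
      rw [if_neg]
      exact not_countable_compl Set.countable_empty)
    (by
      intro f hf hd
      by_cases h : ∀ i, (f i).Countable
      · rw [if_neg (not_countable_compl (Set.countable_iUnion h))]
        symm
        rw [ENNReal.tsum_eq_zero]
        intro i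
        rw [if_neg (not_countable_compl (h i))]
      · push Not at h
        obtain ⟨i, hi⟩ := h
        have hic : (f i)ᶜ.Countable := (hf i).resolve_left hi
        rw [if_pos (hic.mono (Set.compl_subset_compl.2 (Set.subset_iUnion f i)))]
        rw [tsum_eq_single i, if_pos hic]
        intro j hj
        rw [if_neg]
        apply not_countable_compl
        refine hic.mono ?_
        exact (hd hj).subset_compl_right)

open Classical in
private lemma ccMeasure_apply (s : Set Om) (hs : @MeasurableSet Om ccSpace s) :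
    ccMeasure s = if sᶜ.Countable then 1 else 0 :=
  @Measure.ofMeasurable_apply Om ccSpace _ _ _ s hs

/-- The countable-cocountable probability on `Om`. -/
theorem exists_cocountable_measure :
    ∃ (m : MeasurableSpace Om) (μ : @Measure Om m), @IsProbabilityMeasure Om m μ ∧
      @Measure.IsComplete Om m μ ∧
      ∀ s : Set Om, @MeasurableSet Om m s ↔ (s.Countable ∨ sᶜ.Countable) := by
  classical
  refine ⟨ccSpace, ccMeasure, ?_, ?_, fun s => Iff.rfl⟩
  · refine @IsProbabilityMeasure.mk Om ccSpace _ ?_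
    rw [ccMeasure_apply _ (@MeasurableSet.univ Om ccSpace), if_pos]
    rw [Set.compl_univ]
    exact Set.countable_empty
  · refine @Measure.IsComplete.mk Om ccSpace _ ?_
    intro s hs
    obtain ⟨t, hst, htm, ht0⟩ := @exists_measurable_superset_of_null Om ccSpace _ _ hs
    rw [ccMeasure_apply t htm] at ht0
    have h1 : ¬ tᶜ.Countable := by
      intro h
      rw [if_pos h] at ht0
      exact one_ne_zero ht0
    left
    exact (htm.resolve_right h1).mono hst

end FremlinSC40
end

section

open Cardinal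

namespace FremlinSC40

private lemma pred_bdd {S : Set Om} (hS : S.Countable) : ∃ a : Om, ∀ ξ ∈ S, ξ < a := by
  by_contra h
  push Not at h
  apply om_uncountable
  have : (Set.univ : Set Om) = ⋃ ξ ∈ S, Set.Iic ξ := by
    ext x
    simpa using h x
  rw [this]
  refine hS.biUnion fun ξ _ => ?_
  have h2 : (Set.Iic ξ) = Set.Iio ξ ∪ {ξ} := by
    ext x
    simp [le_iff_lt_or_eq]
  rw [h2]
  exact (om_countable_Iio ξ).union (Set.countable_singleton ξ)

private lemma pred_split : ∃ p : Om → Prop, ¬ {ξ | p ξ}.Countable ∧ ¬ {ξ | ¬ p ξ}.Countable := by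
  have hinf : ℵ₀ ≤ #Om := by
    by_contra h
    push Not at h
    apply om_uncountable
    have : Finite Om := Cardinal.lt_aleph0_iff_finite.1 h
    exact Set.to_countable _
  have h1 : #(Om ⊕ Om) = #Om := by
    rw [Cardinal.mk_sum, Cardinal.lift_id, Cardinal.add_eq_self hinf]
  obtain ⟨e⟩ := Cardinal.eq.1 h1
  refine ⟨fun ξ => (e.symm ξ).isLeft = true, ?_, ?_⟩
  · intro h
    apply om_uncountable
    have : (Set.univ : Set Om) ⊆ (fun x => e (Sum.inl x)) ⁻¹' {ξ | (e.symm ξ).isLeft = true} := by
      intro x _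
      simp
    refine Set.Countable.mono this ?_
    refine h.preimage_of_injOn ?_
    intro x _ y _ hxy
    simpa using hxy
  · intro h
    apply om_uncountable
    have : (Set.univ : Set Om) ⊆
        (fun x => e (Sum.inr x)) ⁻¹' {ξ | ¬ (e.symm ξ).isLeft = true} := by
      intro x _
      simp
    refine Set.Countable.mono this ?_
    refine h.preimage_of_injOn ?_
    intro x _ y _ hxy
    simpa using hxy

/-- No predictor `σ` guesses all branches in `B`: some `b ∈ B` is guessed right uncountably often and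
wrong uncountably often. (If `κ < #B`: for each `σ`, a branch guessed right (wrong) from `a` on is
determined by `a`, its restriction to `Iio a` and the choice right/wrong, so there are at most
`ℵ₁ * κ * 2 = κ` branches for which one of the sets is countable. If `B = univ`: well-founded
recursion, with a partition of `Om` into two uncountable sets.) -/
theorem exists_unpredictable (κ : Cardinal.{0}) (hκ : ℵ_ 1 ≤ κ) (B : Set (Om → Bool))
    (hB : ∀ a, #(Restr B a) ≤ κ) (h : κ < #B ∨ B = Set.univ)
    (σ : (a : Om) → (Set.Iio a → Bool) → Bool) :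
    ∃ b ∈ B, ¬ {ξ : Om | σ ξ (fun η => b η) = b ξ}.Countable ∧
      ¬ {ξ : Om | σ ξ (fun η => b η) ≠ b ξ}.Countable := by
  classical
  rcases h with h | h
  · by_contra hcon
    push Not at hcon
    have hex : ∀ b : B, ∃ a : Om, ∃ c : Bool, ∀ ξ : Om, a ≤ ξ →
        (decide (σ ξ (fun η => b.1 η) = b.1 ξ)) = c := by
      intro b
      by_cases h1 : {ξ : Om | σ ξ (fun η => b.1 η) = b.1 ξ}.Countable
      · obtain ⟨a, ha⟩ := pred_bdd h1
        refine ⟨a, false, fun ξ hξ => ?_⟩
        rw [decide_eq_false_iff_not]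
        intro h2
        exact absurd (ha ξ h2) (not_lt.2 hξ)
      · obtain ⟨a, ha⟩ := pred_bdd (hcon b.1 b.2 h1)
        refine ⟨a, true, fun ξ hξ => ?_⟩
        rw [decide_eq_true_iff]
        by_contra h2
        exact absurd (ha ξ h2) (not_lt.2 hξ)
    choose a c hac using hex
    let g : B → (Σ a : Om, (Restr B a × Bool)) := fun b =>
      ⟨a b, (⟨fun η => b.1 η, ⟨b.1, b.2, rfl⟩⟩, c b)⟩
    have hg : Function.Injective g := by
      intro b b' hbb
      have e1 : a b = a b' := congrArg Sigma.fst hbb
      have e2 : c b = c b' := congrArg (fun x => x.2.2) hbb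
      have e3 : ∀ η, η < a b → b.1 η = b'.1 η := by
        have key : ∀ x y : (Σ a : Om, (Restr B a × Bool)), x = y →
            ∀ (η : Om) (h1 : η < x.1) (h2 : η < y.1), x.2.1.1 ⟨η, h1⟩ = y.2.1.1 ⟨η, h2⟩ := by
          rintro x y rfl η h1 h2
          rfl
        intro η hη
        exact key _ _ hbb η hη (lt_of_lt_of_eq hη e1)
      apply Subtype.ext
      funext ξ
      induction ξ using WellFoundedLT.induction with
      | ind ξ ih =>
        rcases lt_or_ge ξ (a b) with hξ | hξ
        · exact e3 ξ hξ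
        · have h1 := hac b ξ hξ
          have h2 := hac b' ξ (e1 ▸ hξ)
          have h3 : (fun η : Set.Iio ξ => b.1 η) = fun η : Set.Iio ξ => b'.1 η := by
            funext η
            exact ih η.1 η.2
          rw [← h3] at h2
          rw [e2, ← h2] at h1
          generalize σ ξ (fun η => b.1 η) = s at h1
          cases s <;> cases hb : b.1 ξ <;> cases hb' : b'.1 ξ <;> simp_all
    have hle : #B ≤ #(Σ a : Om, (Restr B a × Bool)) := Cardinal.mk_le_of_injective hg
    have hle2 : #(Σ a : Om, (Restr B a × Bool)) ≤ κ := by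
      have hκ0 : ℵ₀ ≤ κ := (Cardinal.aleph0_le_aleph 1).trans hκ
      rw [Cardinal.mk_sigma]
      refine (Cardinal.sum_le_mk_mul_iSup _).trans ?_
      have hOm : #Om = ℵ_ 1 := by
        rw [Cardinal.mk_ord_toType]
      rw [hOm]
      refine (mul_le_mul' hκ (ciSup_le' (a := κ) ?_)).trans ?_
      · intro i
        rw [Cardinal.mk_prod, Cardinal.lift_id, Cardinal.lift_id]
        refine (mul_le_mul' (hB i) (show #Bool ≤ κ from ?_)).trans ?_
        · exact (Cardinal.mk_le_aleph0).trans hκ0
        · rw [Cardinal.mul_eq_self hκ0]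
      · rw [Cardinal.mul_eq_self hκ0]
    exact absurd (lt_of_lt_of_le h (hle.trans hle2)) (lt_irrefl _)
  · obtain ⟨p, hp1, hp2⟩ := pred_split
    let b : Om → Bool := WellFoundedLT.fix (motive := fun _ : Om => Bool) fun ξ ih =>
      if p ξ then σ ξ (fun η => ih η.1 η.2) else !(σ ξ (fun η => ih η.1 η.2))
    have hb : ∀ ξ, b ξ = if p ξ then σ ξ (fun η => b η.1) else !(σ ξ (fun η => b η.1)) := by
      intro ξ
      exact WellFoundedLT.fix_eq _ ξ
    refine ⟨b, h ▸ Set.mem_univ _, ?_, ?_⟩
    · intro h1
      apply hp1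
      refine h1.mono ?_
      intro ξ hξ
      have hξ' : p ξ := hξ
      have h2 := hb ξ
      rw [if_pos hξ'] at h2
      exact h2.symm
    · intro h1
      apply hp2
      refine h1.mono ?_
      intro ξ hξ
      have hξ' : ¬ p ξ := hξ
      have h2 := hb ξ
      rw [if_neg hξ'] at h2
      change σ ξ (fun η => b η) ≠ b ξ
      rw [h2]
      cases σ ξ (fun η => b η) <;> simp

end FremlinSC40
end

section

open Cardinal MeasureTheory

namespace FremlinSC40

variable {B : Set (Om → Bool)} {K : Type}

lemma mk_G_le (κ : Cardinal.{0}) (hκ : ℵ_ 1 ≤ κ) (hB : ∀ a, #(Restr B a) ≤ κ) (hK : #K = κ) :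
    #(G B K) ≤ κ := by
  have hinf : ℵ₀ ≤ κ := (Cardinal.aleph0_le_aleph 1).trans hκ
  have hOm : #Om ≤ κ := by rw [Cardinal.mk_ord_toType]; exact hκ
  have h1 : (Set.range fun p : (a : Om) × (Set.Iio a → Bool) × Bool => u B K p.1 p.2.1 p.2.2) ⊆
      {0} ∪ Set.range (fun p : (a : Om) × (Restr B a) × Bool => u B K p.1 p.2.1.1 p.2.2) := by
    rintro _ ⟨⟨a, r, ε⟩, rfl⟩
    by_cases hr : r ∈ Restr B a
    · right; exact ⟨⟨a, ⟨r, hr⟩, ε⟩, rfl⟩
    · left
      have : cone B K a r ε = ∅ := by
        ext e
        simp only [cone, Set.mem_setOf_eq, Set.mem_empty_iff_false, iff_false]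
        rintro ⟨c, -, h, -⟩
        exact hr ⟨c.1, c.2, funext h⟩
      simp only [Set.mem_singleton_iff, u, this, ind_empty]
  have h2 : #((a : Om) × (Restr B a) × Bool) ≤ κ := by
    rw [Cardinal.mk_sigma]
    calc Cardinal.sum (fun a : Om => #((Restr B a) × Bool)) ≤ Cardinal.sum (fun _ : Om => κ) := by
          apply Cardinal.sum_le_sum
          intro a
          rw [Cardinal.mk_prod, Cardinal.lift_id, Cardinal.lift_id]
          exact Cardinal.mul_le_of_le hinf (hB a) ((Cardinal.mk_le_aleph0).trans hinf)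
      _ ≤ κ := by
          rw [Cardinal.sum_const, Cardinal.lift_id, Cardinal.lift_id]
          exact Cardinal.mul_le_of_le hinf hOm le_rfl
  have h3 : #(G B K) ≤ #(({0} ∪ Set.range (fun p : (a : Om) × (Restr B a) × Bool =>
      u B K p.1 p.2.1.1 p.2.2) : Set (Z B K))) + #(Set.range (pt B K)) := by
    refine (Cardinal.mk_union_le _ _).trans ?_
    gcongr
    exact Cardinal.mk_le_mk_of_subset h1
  refine h3.trans (Cardinal.add_le_of_le hinf ?_ ?_)
  · refine (Cardinal.mk_union_le _ _).trans (Cardinal.add_le_of_le hinf ?_ (Cardinal.mk_range_le.trans h2))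
    rw [Cardinal.mk_singleton]
    exact Cardinal.one_le_aleph0.trans hinf
  · exact Cardinal.mk_range_le.trans hK.le

lemma pt_dist (i j : K) (hij : i ≠ j) : 1 ≤ ‖pt B K i - pt B K j‖ := by
  have h := BoundedContinuousFunction.norm_coe_le_norm (pt B K i - pt B K j) (Sum.inr i : E B K)
  refine le_trans ?_ h
  rw [BoundedContinuousFunction.coe_sub, Pi.sub_apply]
  have h1 : (pt B K i) (Sum.inr i : E B K) = 1 := by
    classical
    exact (ind_apply _ _).trans (if_pos rfl)
  have h2 : (pt B K j) (Sum.inr i : E B K) = 0 := by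
    classical
    refine (ind_apply _ _).trans (if_neg ?_)
    intro h
    exact hij (Sum.inr_injective h)
  rw [h1, h2]; simp

theorem hasDensity_X (κ : Cardinal.{0}) (hκ : ℵ_ 1 ≤ κ) (hB : ∀ a, #(Restr B a) ≤ κ) (hK : #K = κ) :
    HasDensity (X B K) κ :=
  hasDensity_closedSpan κ ((Cardinal.aleph0_le_aleph 1).trans hκ) (G B K) (mk_G_le κ hκ hB hK) hK
    (pt B K) (fun k => Or.inr ⟨k, rfl⟩) pt_dist

end FremlinSC40
end

section

open Cardinal MeasureTheory

namespace FremlinSC40

variable {B : Set (Om → Bool)} {K : Type}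

lemma pair_ok (x : X B K) : ({x, -x} : Set (X B K)).Nonempty ∧
    IsCompact ((toWeakSpace ℝ (X B K)) '' ({x, -x} : Set (X B K))) :=
  ⟨⟨x, by simp⟩, ((Set.toFinite _).image _).isCompact⟩

theorem not_SC (κ : Cardinal.{0}) (hκ : ℵ_ 1 ≤ κ) (hB : ∀ a, #(Restr B a) ≤ κ)
    (h : κ < #B ∨ B = Set.univ) : ¬ PropertySC (X B K) := by
  classical
  rintro ⟨ψ, hψ1, hψ2⟩
  obtain ⟨m, μ, hμ1, hμ2, hm⟩ := exists_cocountable_measure
  obtain ⟨b, hb, h1, h2⟩ := exists_unpredictable κ hκ B hB h
    (fun a r => decide (ψ {xv B K a r, -xv B K a r} = xv B K a r))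
  have h3 := hψ2 Om m μ hμ1 hμ2 (fun ξ => {xv B K ξ (rs b ξ), -xv B K ξ (rs b ξ)})
    (fun ξ => pair_ok _) ?_ (ev B K (Sum.inl ⟨b, hb⟩))
  · have h4 : @MeasurableSet Om m {ξ | ev B K (Sum.inl ⟨b, hb⟩)
        (ψ {xv B K ξ (rs b ξ), -xv B K ξ (rs b ξ)}) = -1} := h3 (measurableSet_singleton (-1 : ℝ))
    have h5 : {ξ | ev B K (Sum.inl ⟨b, hb⟩) (ψ {xv B K ξ (rs b ξ), -xv B K ξ (rs b ξ)}) = -1} =
        {ξ : Om | decide (ψ {xv B K ξ (fun η : Set.Iio ξ => b η), -xv B K ξ (fun η : Set.Iio ξ => b η)} =
          xv B K ξ (fun η : Set.Iio ξ => b η)) = b ξ} := by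
      ext ξ
      simp only [Set.mem_setOf_eq]
      change _ ↔ decide (ψ {xv B K ξ (rs b ξ), -xv B K ξ (rs b ξ)} = xv B K ξ (rs b ξ)) = b ξ
      have h6 : ψ {xv B K ξ (rs b ξ), -xv B K ξ (rs b ξ)} = xv B K ξ (rs b ξ) ∨
          ψ {xv B K ξ (rs b ξ), -xv B K ξ (rs b ξ)} = -xv B K ξ (rs b ξ) := by
        have := hψ1 _ (pair_ok (xv B K ξ (rs b ξ))).1 (pair_ok (xv B K ξ (rs b ξ))).2
        simpa using this
      have h7 := xv_branch (K := K) hb ξ
      by_cases h8 : ψ {xv B K ξ (rs b ξ), -xv B K ξ (rs b ξ)} = xv B K ξ (rs b ξ)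
      · rw [h8, h7]
        cases hbξ : b ξ <;> norm_num
      · have h9 := h6.resolve_left h8
        rw [decide_eq_false h8, h9, map_neg, h7]
        cases hbξ : b ξ <;> norm_num
    rw [h5] at h4
    rcases (hm _).1 h4 with h6 | h6
    · exact h1 h6
    · exact h2 h6
  · intro x' a
    obtain ⟨c, hc⟩ := abs_const (K := K) b x'
    rw [hm]
    have h4 : {ω | ∃ x ∈ ({xv B K ω (rs b ω), -xv B K ω (rs b ω)} : Set (X B K)), a < x' x} =
        {ω | a < |x' (xv B K ω (rs b ω))|} := by
      ext ω
      simp only [Set.mem_insert_iff, Set.mem_singleton_iff, exists_eq_or_imp, exists_eq_left,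
        Set.mem_setOf_eq, map_neg, lt_abs]
    rw [h4]
    by_cases hac : a < c
    · right
      refine hc.mono ?_
      intro ω hω h5
      apply hω
      simp only [Set.mem_setOf_eq]
      rw [h5]; exact hac
    · left
      refine hc.mono ?_
      intro ω hω h5
      apply hac
      rw [← h5]; exact hω

end FremlinSC40
end
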